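import Pool.Agent.Helper861_FPR.Param

/-!
# The leading monomial at a prime ideal
-/

set_option autoImplicit false

namespace Pool.Agent.Helper861_FPR

open IsLocalRing

variable {R : Type*} [CommRing R]

theorem map_pw {S ι : Type*} [CommRing S] (f : R →+* S) (x : ι → R) (a : ι → ℕ) (s : Finset ι) :
    (Pw x a s).map f = Pw (fun i => f (x i)) a s := by
  unfold Pw
  rw [Ideal.map_span, ← Set.image_comp]
  congr 1
  apply Set.image_congr
  intro i _
  simp

/-- The leading monomial of an element at a prime ideal. -/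
theorem lead_at (P : Ideal R) [P.IsPrime] [IsRegularLocalRing (Localization.AtPrime P)] (hfg : P.FG)
    (c : R) (hc : algebraMap R (Localization.AtPrime P) c ≠ 0) :
    ∃ (h : ℕ) (x : Fin h → R) (k : Fin h → ℕ) (u s s' : R), u ∉ P ∧ s' ∉ P ∧ (∀ i, x i ∈ P) ∧
      ringKrullDim (Localization.AtPrime P) = (h : ℕ) ∧
      (∀ a ∈ P, s' * a ∈ Ideal.span (Set.range x)) ∧
      s * c - u * ∏ i, x i ^ k i ∈ Pw x (fun i => k i + 1) Finset.univ := by
  classical
  obtain ⟨h, y, hy, hd⟩ := exists_params (Localization.AtPrime P)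
  have hyP : ∀ i, ∃ (x : R) (t : P.primeCompl), x ∈ P ∧
      y i * algebraMap R (Localization.AtPrime P) t = algebraMap R _ x := by
    intro i
    obtain ⟨⟨x, t⟩, hxt⟩ := IsLocalization.surj P.primeCompl (y i)
    refine ⟨x, t, ?_, hxt⟩
    have h1 : y i ∈ maximalIdeal (Localization.AtPrime P) := by
      rw [← hy]
      exact Ideal.subset_span ⟨i, rfl⟩
    have h2 : algebraMap R (Localization.AtPrime P) x ∈ maximalIdeal (Localization.AtPrime P) := by
      rw [← hxt]
      exact Ideal.mul_mem_right _ _ h1
    exact (IsLocalization.AtPrime.to_map_mem_maximal_iff _ P x).1 h2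
  choose x t hx hxt using hyP
  have hspan : Ideal.span (Set.range fun i => algebraMap R (Localization.AtPrime P) (x i)) =
      maximalIdeal (Localization.AtPrime P) := by
    rw [← hy]
    apply le_antisymm
    · rw [Ideal.span_le]
      rintro _ ⟨i, rfl⟩
      simp only
      rw [← hxt i]
      exact Ideal.mul_mem_right _ _ (Ideal.subset_span ⟨i, rfl⟩)
    · rw [Ideal.span_le]
      rintro _ ⟨i, rfl⟩
      have hu : IsUnit (algebraMap R (Localization.AtPrime P) (t i)) :=
        IsLocalization.map_units _ (t i)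
      obtain ⟨v, hv⟩ := hu
      have : y i = algebraMap R (Localization.AtPrime P) (x i) * ((v⁻¹ : _ˣ) : _) := by
        rw [← hxt i, ← hv, mul_assoc, Units.mul_inv, mul_one]
      rw [SetLike.mem_coe, this]
      exact Ideal.mul_mem_right _ _ (Ideal.subset_span ⟨i, rfl⟩)
  -- the leading monomial
  obtain ⟨k, c', hc', hlead⟩ := exists_lead
    (z := fun i => algebraMap R (Localization.AtPrime P) (x i))
    (fun i => by rw [← hspan]; exact Ideal.subset_span ⟨i, rfl⟩) hc Finset.univ
  rw [Finset.coe_univ, Set.image_univ, hspan] at hc'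
  obtain ⟨⟨u, t₀⟩, hut⟩ := IsLocalization.surj P.primeCompl c'
  have hu : u ∉ P := by
    intro hu
    apply hc'
    have h1 : algebraMap R (Localization.AtPrime P) u ∈ maximalIdeal (Localization.AtPrime P) :=
      (IsLocalization.AtPrime.to_map_mem_maximal_iff _ P u).2 hu
    rw [← hut] at h1
    exact (Ideal.mul_unit_mem_iff_mem _ (IsLocalization.map_units _ t₀)).1 h1
  have h1 : algebraMap R (Localization.AtPrime P) (t₀ * c - u * ∏ i, x i ^ k i) ∈
      (Pw x (fun i => k i + 1) Finset.univ).map (algebraMap R (Localization.AtPrime P)) := by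
    rw [map_pw]
    have h2 := Ideal.mul_mem_left _ (algebraMap R (Localization.AtPrime P) t₀) hlead
    have h3 : algebraMap R (Localization.AtPrime P) (t₀ * c - u * ∏ i, x i ^ k i) =
        algebraMap R (Localization.AtPrime P) t₀ * (algebraMap R (Localization.AtPrime P) c -
          c' * ∏ i, algebraMap R (Localization.AtPrime P) (x i) ^ k i) := by
      rw [map_sub, map_mul, map_mul, ← hut, map_prod]
      simp only [map_pow]
      ring
    rw [h3]
    exact h2
  obtain ⟨m₀, hm₀, hmem⟩ := (IsLocalization.algebraMap_mem_map_algebraMap_iff P.primeCompl _ _ _).1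
    h1
  -- a common denominator for `P`
  have hden : ∀ a ∈ P, ∃ m ∈ P.primeCompl, m * a ∈ Ideal.span (Set.range x) := by
    intro a ha
    have h2 : algebraMap R (Localization.AtPrime P) a ∈
        (Ideal.span (Set.range x)).map (algebraMap R (Localization.AtPrime P)) := by
      rw [Ideal.map_span, ← Set.range_comp]
      have h3 : (algebraMap R (Localization.AtPrime P) : R → _) ∘ x =
          fun i => algebraMap R (Localization.AtPrime P) (x i) := rfl
      rw [h3, hspan]
      exact (IsLocalization.AtPrime.to_map_mem_maximal_iff _ P a).2 ha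
    exact (IsLocalization.algebraMap_mem_map_algebraMap_iff P.primeCompl _ _ _).1 h2
  obtain ⟨s', hs', hs'P⟩ : ∃ s' ∉ P, ∀ a ∈ P, s' * a ∈ Ideal.span (Set.range x) := by
    obtain ⟨G, hG⟩ := hfg
    have hGP : ∀ g ∈ G, g ∈ P := fun g hg => hG ▸ Ideal.subset_span hg
    choose! d hd1 hd2 using hden
    refine ⟨∏ g ∈ G, d g, ?_, ?_⟩
    · intro hmem
      obtain ⟨g, hg, hgm⟩ := (Ideal.IsPrime.prod_mem_iff).1 hmem
      exact hd1 g (hGP g hg) hgm
    · intro a ha
      rw [← hG] at ha
      induction ha using Submodule.span_induction with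
      | mem g hg =>
        rw [← Finset.mul_prod_erase G d hg, mul_comm (d g), mul_assoc]
        exact Ideal.mul_mem_left _ _ (hd2 g (hGP g hg))
      | zero => rw [mul_zero]; exact Ideal.zero_mem _
      | add a b _ _ ha hb => rw [mul_add]; exact Ideal.add_mem _ ha hb
      | smul r a _ ha =>
        rw [smul_eq_mul, mul_left_comm]
        exact Ideal.mul_mem_left _ _ ha
  refine ⟨h, x, k, m₀ * u, m₀ * t₀, s', ?_, hs', hx, hd, hs'P, ?_⟩
  · intro hmem
    rcases ‹P.IsPrime›.mem_or_mem hmem with h2 | h2
    · exact hm₀ h2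
    · exact hu h2
  · have : m₀ * t₀ * c - m₀ * u * ∏ i, x i ^ k i = m₀ * (t₀ * c - u * ∏ i, x i ^ k i) := by ring
    rw [this]
    exact hmem

end Pool.Agent.Helper861_FPR
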