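import Pool.Agent.Helper861_FPR.Ext
import Pool.Agent.Helper861_FPR.Lead

/-!
# A uniform bound for the order of an element
-/

set_option autoImplicit false

namespace Pool.Agent.Helper861_FPR

open IsLocalRing

theorem pw_le {A ι : Type*} [CommRing A] (z : ι → A) (a : ι → ℕ) {s t : Finset ι} (h : s ⊆ t) :
    Pw z a s ≤ Pw z a t :=
  Ideal.span_mono (Set.image_mono (by exact_mod_cast h))

/-- The local bound. -/
theorem not_mem_local {A : Type*} [CommRing A] [IsRegularLocalRing A] {h : ℕ} (x : Fin h → A)
    (Q : Ideal A) [Q.IsPrime] (hQ : Ideal.span (Set.range x) = Q) (hh : (h : ℕ∞) ≤ Q.height)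
    (hreg : IsRegularLocalRing (A ⧸ Q)) (k : Fin h → ℕ) (u s c : A) (hu : IsUnit u)
    (hlead : s * c - u * ∏ i, x i ^ k i ∈ Pw x (fun i => k i + 1) Finset.univ) :
    c ∉ maximalIdeal A ^ (∑ i, (k i + 1) + 1 + 1) := by
  classical
  intro hc
  obtain ⟨e, y, hspan, hd⟩ := extend_params x Q hQ hh hreg
  have hgood := good (Sum.elim x y) hspan hd
  set z := Sum.elim x y with hz
  set T : Finset (Fin h ⊕ Fin e) := Finset.univ.map Function.Embedding.inl with hT
  set b : Fin h ⊕ Fin e → ℕ := fun i => if i ∈ T then Sum.elim k (fun _ => 0) i + 1 else 1 with hb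
  have hmono := mono hgood (Sum.elim k (fun _ => 0)) T
  have hTmem : ∀ i : Fin h, (Sum.inl i : Fin h ⊕ Fin e) ∈ T := by
    intro i
    rw [hT, Finset.mem_map]
    exact ⟨i, Finset.mem_univ _, rfl⟩
  have hbl : ∀ i : Fin h, b (Sum.inl i) = k i + 1 := by
    intro i
    rw [hb]
    simp only
    rw [if_pos (hTmem i)]
    rfl
  have hprod : ∏ i ∈ T, z i ^ Sum.elim k (fun _ => 0) i = ∏ i, x i ^ k i := by
    rw [hT, Finset.prod_map]
    rfl
  rw [hprod] at hmono
  apply hmono
  -- both parts are in the ideal of the powers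
  have h1 : Pw x (fun i => k i + 1) Finset.univ ≤ Pw z b Finset.univ := by
    unfold Pw
    rw [Ideal.span_le]
    rintro _ ⟨i, -, rfl⟩
    refine Ideal.subset_span ⟨Sum.inl i, by simp, ?_⟩
    simp only
    rw [hbl]
    rfl
  have hsum : ∑ i ∈ T, b i = ∑ i, (k i + 1) := by
    rw [hT, Finset.sum_map]
    exact Finset.sum_congr rfl fun i _ => hbl i
  have h2 : maximalIdeal A ^ (∑ i, (k i + 1) + 1 + 1) ≤ Pw z b Finset.univ := by
    have h3 : maximalIdeal A = Ideal.span (z '' (T : Set (Fin h ⊕ Fin e))) ⊔
        Ideal.span (z '' ((Tᶜ : Finset (Fin h ⊕ Fin e)) : Set (Fin h ⊕ Fin e))) := by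
      rw [← hspan, ← Ideal.span_union, ← Set.image_union, ← Finset.coe_union,
        Finset.union_compl, Finset.coe_univ, Set.image_univ]
    rw [h3]
    refine (Ideal.sup_pow_add_le_pow_sup_pow).trans (sup_le ?_ ?_)
    · rw [← hsum]
      exact (pow_le_pw z b T).trans (pw_le z b (Finset.subset_univ _))
    · rw [pow_one, Ideal.span_le]
      rintro _ ⟨i, hi, rfl⟩
      have hi' : i ∉ T := by simpa using hi
      refine Ideal.subset_span ⟨i, by simp, ?_⟩
      simp only
      rw [hb]
      simp only
      rw [if_neg hi', pow_one]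
  have h4 : u * ∏ i, x i ^ k i ∈ Pw z b Finset.univ := by
    have h5 := (Pw z b Finset.univ).sub_mem (Ideal.mul_mem_left _ s (h2 hc)) (h1 hlead)
    have h6 : s * c - (s * c - u * ∏ i, x i ^ k i) = u * ∏ i, x i ^ k i := by ring
    rwa [h6] at h5
  exact (Ideal.unit_mul_mem_iff_mem _ hu).1 h4

/-- The regular locus of `R ⧸ P` contains a nonempty basic open set, for every prime `P`. -/
def J0 (R : Type*) [CommRing R] : Prop :=
  ∀ P : Ideal R, P.IsPrime → ∃ f ∉ P, ∀ 𝔮 : PrimeSpectrum (R ⧸ P),
    Ideal.Quotient.mk P f ∉ 𝔮.asIdeal → IsRegularLocalRing (Localization.AtPrime 𝔮.asIdeal)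

/-- The quotient of the localization is the localization of the quotient. -/
theorem quot_loc {R : Type*} [CommRing R] (P m : Ideal R) [P.IsPrime] [m.IsPrime] (hPm : P ≤ m)
    (hreg : ∀ 𝔮 : PrimeSpectrum (R ⧸ P), 𝔮.asIdeal = m.map (Ideal.Quotient.mk P) →
      IsRegularLocalRing (Localization.AtPrime 𝔮.asIdeal)) :
    IsRegularLocalRing (Localization.AtPrime m ⧸ P.map (algebraMap R (Localization.AtPrime m))) := by
  have hcomap : (m.map (Ideal.Quotient.mk P)).comap (Ideal.Quotient.mk P) = m := by
    rw [Ideal.comap_map_of_surjective _ Ideal.Quotient.mk_surjective, ← RingHom.ker_eq_comap_bot,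
      Ideal.mk_ker]
    exact sup_eq_left.2 hPm
  have hprime : (m.map (Ideal.Quotient.mk P)).IsPrime :=
    Ideal.map_isPrime_of_surjective Ideal.Quotient.mk_surjective (by rw [Ideal.mk_ker]; exact hPm)
  have h1 := hreg ⟨m.map (Ideal.Quotient.mk P), hprime⟩ rfl
  have h2 : Algebra.algebraMapSubmonoid (R ⧸ P) m.primeCompl =
      (m.map (Ideal.Quotient.mk P)).primeCompl := by
    ext a
    constructor
    · rintro ⟨b, hb, rfl⟩
      intro hmem
      apply hb
      rw [← hcomap]
      exact hmem
    · intro ha
      obtain ⟨b, rfl⟩ := Ideal.Quotient.mk_surjective a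
      refine ⟨b, ?_, rfl⟩
      intro hb
      exact ha (Ideal.mem_map_of_mem _ hb)
  have h3 : IsLocalization (Algebra.algebraMapSubmonoid (R ⧸ P) m.primeCompl)
      (Localization.AtPrime m ⧸ P.map (algebraMap R (Localization.AtPrime m))) := inferInstance
  rw [h2] at h3
  have h4 : IsLocalization (m.map (Ideal.Quotient.mk P)).primeCompl
    (Localization.AtPrime (m.map (Ideal.Quotient.mk P))) := inferInstance
  exact IsRegularLocalRing.of_ringEquiv
    (IsLocalization.algEquiv (m.map (Ideal.Quotient.mk P)).primeCompl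
      (Localization.AtPrime (m.map (Ideal.Quotient.mk P)))
      (Localization.AtPrime m ⧸ P.map (algebraMap R (Localization.AtPrime m)))).toRingEquiv

/-- The uniform bound near a prime. -/
theorem bound_prime (R : Type*) [CommRing R] [IsRegularRing R] (hJ : J0 R) (c : R)
    (P : Ideal R) [P.IsPrime] (hc : algebraMap R (Localization.AtPrime P) c ≠ 0) :
    ∃ f ∉ P, ∃ N : ℕ, ∀ (m : Ideal R) [m.IsPrime], P ≤ m → f ∉ m →
      algebraMap R (Localization.AtPrime m) c ∉ maximalIdeal (Localization.AtPrime m) ^ N := by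
  obtain ⟨h, x, k, u, s, s', hu, hs', hx, hd, hs'P, hlead⟩ :=
    lead_at P P.fg_of_isNoetherianRing c hc
  obtain ⟨f, hf, hfreg⟩ := hJ P inferInstance
  refine ⟨f * (s' * u), ?_, ∑ i, (k i + 1) + 1 + 1, ?_⟩
  · intro hmem
    rcases ‹P.IsPrime›.mem_or_mem hmem with h1 | h1
    · exact hf h1
    · rcases ‹P.IsPrime›.mem_or_mem h1 with h2 | h2
      · exact hs' h2
      · exact hu h2
  · intro m _ hPm hfm
    have hfm1 : f ∉ m := fun h => hfm (m.mul_mem_right _ h)
    have hsm : s' ∉ m := fun h => hfm (m.mul_mem_left _ (m.mul_mem_right _ h))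
    have hum : u ∉ m := fun h => hfm (m.mul_mem_left _ (m.mul_mem_left _ h))
    have hunit : ∀ a ∉ m, IsUnit (algebraMap R (Localization.AtPrime m) a) := fun a ha =>
      IsLocalization.map_units (Localization.AtPrime m) (⟨a, ha⟩ : m.primeCompl)
    have hQ : Ideal.span (Set.range fun i => algebraMap R (Localization.AtPrime m) (x i)) =
        P.map (algebraMap R (Localization.AtPrime m)) := by
      apply le_antisymm
      · rw [Ideal.span_le]
        rintro _ ⟨i, rfl⟩
        exact Ideal.mem_map_of_mem _ (hx i)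
      · rw [Ideal.map_le_iff_le_comap]
        intro a ha
        rw [Ideal.mem_comap, ← Ideal.unit_mul_mem_iff_mem _ (hunit s' hsm), ← map_mul]
        have h1 := Ideal.mem_map_of_mem (algebraMap R (Localization.AtPrime m)) (hs'P a ha)
        rw [Ideal.map_span, ← Set.range_comp] at h1
        exact h1
    have hdisj : Disjoint (m.primeCompl : Set R) (P : Set R) := by
      rw [Set.disjoint_left]
      intro a ha haP
      exact ha (hPm haP)
    have hQprime : (P.map (algebraMap R (Localization.AtPrime m))).IsPrime :=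
      IsLocalization.isPrime_of_isPrime_disjoint m.primeCompl _ P inferInstance hdisj
    have hcomap : (P.map (algebraMap R (Localization.AtPrime m))).comap
        (algebraMap R (Localization.AtPrime m)) = P :=
      IsLocalization.under_map_of_isPrime_disjoint m.primeCompl _ inferInstance hdisj
    have hheight : (h : ℕ∞) ≤ (P.map (algebraMap R (Localization.AtPrime m))).height := by
      have h1 := IsLocalization.height_under m.primeCompl
        (P.map (algebraMap R (Localization.AtPrime m)))
      rw [Ideal.under_def, hcomap] at h1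
      rw [← h1]
      have h2 := IsLocalization.AtPrime.ringKrullDim_eq_height P (Localization.AtPrime P)
      rw [hd] at h2
      have h3 : (h : ℕ∞) = P.height := by exact_mod_cast h2
      exact h3.le
    have hregQ := quot_loc P m hPm (fun 𝔮 h𝔮 => hfreg 𝔮 (by
      rw [h𝔮]
      intro hmem
      apply hfm1
      have h1 : (m.map (Ideal.Quotient.mk P)).comap (Ideal.Quotient.mk P) = m := by
        rw [Ideal.comap_map_of_surjective _ Ideal.Quotient.mk_surjective,
          ← RingHom.ker_eq_comap_bot, Ideal.mk_ker]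
        exact sup_eq_left.2 hPm
      rw [← h1]
      exact hmem))
    refine not_mem_local (fun i => algebraMap R (Localization.AtPrime m) (x i))
      (P.map (algebraMap R (Localization.AtPrime m))) hQ hheight hregQ k
      (algebraMap R _ u) (algebraMap R _ s) _ (hunit u hum) ?_
    have h1 := Ideal.mem_map_of_mem (algebraMap R (Localization.AtPrime m)) hlead
    rw [map_pw, map_sub, map_mul, map_mul, map_prod] at h1
    simpa only [map_pow] using h1

/-- The uniform bound. -/
theorem bound (R : Type*) [CommRing R] [IsRegularRing R] (hJ : J0 R) (c : R)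
    (hc : ∀ (P : Ideal R) [P.IsPrime], algebraMap R (Localization.AtPrime P) c ≠ 0) :
    ∃ N : ℕ, ∀ (m : Ideal R) [m.IsPrime],
      algebraMap R (Localization.AtPrime m) c ∉ maximalIdeal (Localization.AtPrime m) ^ N := by
  have key : ∀ I : Ideal R, ∃ N : ℕ, ∀ (m : Ideal R) [m.IsPrime], I ≤ m →
      algebraMap R (Localization.AtPrime m) c ∉ maximalIdeal (Localization.AtPrime m) ^ N := by
    intro I
    induction I using IsNoetherian.induction with
    | _ I ih =>
      by_cases htop : I = ⊤
      · refine ⟨0, fun m hm hIm => ?_⟩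
        rw [htop] at hIm
        exact absurd (top_le_iff.1 hIm) hm.ne_top
      by_cases hI : Ideal.IsPrime I
      · obtain ⟨f, hf, N, hN⟩ := bound_prime R hJ c I (hc I)
        have hlt : I < I ⊔ Ideal.span {f} := by
          refine lt_of_le_of_ne le_sup_left fun h => hf ?_
          rw [h]
          exact Submodule.mem_sup_right (Ideal.mem_span_singleton_self f)
        obtain ⟨N', hN'⟩ := ih _ hlt
        refine ⟨max N N', fun m _ hIm hmem => ?_⟩
        by_cases hfm : f ∈ m
        · refine hN' m (sup_le hIm ?_) (Ideal.pow_le_pow_right (le_max_right _ _) hmem)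
          rw [Ideal.span_singleton_le_iff_mem]
          exact hfm
        · exact hN m hIm hfm (Ideal.pow_le_pow_right (le_max_left _ _) hmem)
      · -- not prime
        obtain ⟨a, b, hab, ha, hb⟩ : ∃ a b, a * b ∈ I ∧ a ∉ I ∧ b ∉ I := by
          by_contra hcon
          push Not at hcon
          refine hI ⟨htop, fun {a b} hab => ?_⟩
          by_cases ha : a ∈ I
          · exact Or.inl ha
          · exact Or.inr (hcon a b hab ha)
        have hlt : ∀ a ∉ I, I < I ⊔ Ideal.span {a} := by
          intro a ha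
          refine lt_of_le_of_ne le_sup_left fun h => ha ?_
          rw [h]
          exact Submodule.mem_sup_right (Ideal.mem_span_singleton_self a)
        obtain ⟨N, hN⟩ := ih _ (hlt a ha)
        obtain ⟨N', hN'⟩ := ih _ (hlt b hb)
        refine ⟨max N N', fun m hm hIm hmem => ?_⟩
        rcases hm.mem_or_mem (hIm hab) with h | h
        · refine hN m (sup_le hIm ?_) (Ideal.pow_le_pow_right (le_max_left _ _) hmem)
          rw [Ideal.span_singleton_le_iff_mem]
          exact h
        · refine hN' m (sup_le hIm ?_) (Ideal.pow_le_pow_right (le_max_right _ _) hmem)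
          rw [Ideal.span_singleton_le_iff_mem]
          exact h
  obtain ⟨N, hN⟩ := key ⊥
  exact ⟨N, fun m _ => hN m bot_le⟩

end Pool.Agent.Helper861_FPR
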