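import Mathlib

/-!
# Frobenius pushforwards, purity and F-pure regularity
-/

set_option autoImplicit false

namespace Pool.Agent.Helper861_FPR

open TensorProduct

universe u v

/-- The underlying type of the module `F^e_* R`. -/
def FPush (R : Type u) (_p _e : ℕ) : Type u := R

instance (R : Type u) [CommRing R] (p e : ℕ) : AddCommGroup (FPush R p e) :=
  inferInstanceAs (AddCommGroup R)

/-- The module `F^e_* R`: the ring `R` regarded as an `R`-module through the `e`-th power of the
Frobenius map, that is, `r` acts on `x` as `r ^ (p ^ e) * x`. -/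
instance (R : Type u) [CommRing R] (p : ℕ) [ExpChar R p] (e : ℕ) : Module R (FPush R p e) :=
  Module.compHom R (iterateFrobenius R p e)

/-- The element `F^e_* x` of `F^e_* R`. -/
def toF (R : Type u) [CommRing R] (p e : ℕ) : R ≃+ FPush R p e :=
  AddEquiv.refl R

theorem smul_toF (R : Type u) [CommRing R] (p : ℕ) [ExpChar R p] (e : ℕ) (r x : R) :
    r • toF R p e x = toF R p e (r ^ p ^ e * x) := rfl

/-- The map `R → F^e_* R` that sends `1` to `F^e_* c`. -/
def lam (R : Type u) [CommRing R] (p : ℕ) [ExpChar R p] (e : ℕ) (c : R) : R →ₗ[R] FPush R p e :=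
  LinearMap.toSpanSingleton R _ (toF R p e c)

/-- A linear map is pure when it stays injective after tensoring with any module. -/
def IsPure {R : Type u} [CommRing R] {M N : Type u} [AddCommGroup M] [Module R M]
    [AddCommGroup N] [Module R N] (f : M →ₗ[R] N) : Prop :=
  ∀ (P : Type v) [AddCommGroup P] [Module R P], Function.Injective (f.rTensor P)

example (R : Type u) [CommRing R] (p : ℕ) [Fact p.Prime] [CharP R p] : ExpChar R p := inferInstance

end Pool.Agent.Helper861_FPR
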