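import Pool.Agent.Helper861_FPR.Glob

/-!
# Excellent rings
-/

set_option autoImplicit false

namespace Pool.Agent.Helper861_FPR

open TensorProduct IsLocalRing

universe u v

/-- `R` of characteristic `p` is F-pure regular: for every `c` outside the minimal primes there is
`e ≥ 1` such that the map `R → F^e_* R`, `1 ↦ F^e_* c`, is pure. -/
def IsFPureRegular (R : Type u) [CommRing R] (p : ℕ) [ExpChar R p] : Prop :=
  ∀ c : R, (∀ P ∈ minimalPrimes R, c ∉ P) → ∃ e : ℕ, 1 ≤ e ∧ IsPure.{u, v} (lam R p e c)

/-- The regular locus. -/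
def RegLocus (S : Type u) [CommRing S] : Set (PrimeSpectrum S) :=
  {𝔮 | IsRegularLocalRing (Localization.AtPrime 𝔮.asIdeal)}

/-- `R` is J-2: the regular locus of every algebra of finite type is open. -/
def IsJ2 (R : Type u) [CommRing R] : Prop :=
  ∀ (S : Type u) [CommRing S] [Algebra R S], Algebra.FiniteType R S → IsOpen (RegLocus S)

/-- Saturated chains of primes with the same ends have the same length. -/
def IsCatenary (S : Type u) [CommRing S] : Prop :=
  ∀ a b : RelSeries {x : PrimeSpectrum S × PrimeSpectrum S | x.1 ⋖ x.2},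
    a.head = b.head → a.last = b.last → a.length = b.length

/-- `R` is a G-ring: the formal fibres of all local rings are geometrically regular, that is, for
every field `L` that is finite over the residue field of a prime of `A = R_P` (the subfield
generated by the image of `A`), the ring `L ⊗ Â` is regular. -/
def IsGRing (R : Type u) [CommRing R] : Prop :=
  ∀ (P : Ideal R) [P.IsPrime] (L : Type u) [Field L] [Algebra (Localization.AtPrime P) L],
    Module.Finite (Subfield.closure (Set.range (algebraMap (Localization.AtPrime P) L))) L →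
    IsRegularRing (L ⊗[Localization.AtPrime P]
      AdicCompletion (maximalIdeal (Localization.AtPrime P)) (Localization.AtPrime P))

/-- Excellent rings (Grothendieck). -/
structure IsExcellent (R : Type u) [CommRing R] : Prop where
  noetherian : IsNoetherianRing R
  catenary : ∀ (S : Type u) [CommRing S] [Algebra R S], Algebra.FiniteType R S → IsCatenary S
  gRing : IsGRing R
  j2 : IsJ2 R

theorem j0_of_j2 (R : Type u) [CommRing R] (h : IsJ2 R) : J0 R := by
  intro P hP
  have h1 := h (R ⧸ P) inferInstance
  have hdom : IsDomain (R ⧸ P) := (Ideal.Quotient.isDomain_iff_prime P).2 hP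
  have h2 : (⊥ : PrimeSpectrum (R ⧸ P)) ∈ RegLocus (R ⧸ P) := by
    show IsRegularLocalRing (Localization.AtPrime (⊥ : PrimeSpectrum (R ⧸ P)).asIdeal)
    have h3 : IsField (Localization.AtPrime (⊥ : PrimeSpectrum (R ⧸ P)).asIdeal) := by
      rw [isField_iff_maximalIdeal_eq, ← Localization.AtPrime.map_eq_maximalIdeal, eq_bot_iff,
        Ideal.map_le_iff_le_comap]
      intro x hx
      have hx0 : x = 0 := hx
      rw [hx0]
      exact Ideal.zero_mem _
    let := h3.toField
    infer_instance
  obtain ⟨U, ⟨f, rfl⟩, hfU, hsub⟩ :=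
    (PrimeSpectrum.isTopologicalBasis_basic_opens).exists_subset_of_mem_open h2 h1
  obtain ⟨f, rfl⟩ := Ideal.Quotient.mk_surjective f
  refine ⟨f, ?_, fun 𝔮 h𝔮 => hsub h𝔮⟩
  intro hf
  apply hfU
  rw [Ideal.Quotient.eq_zero_iff_mem.2 hf]
  exact Ideal.zero_mem _

theorem main (R : Type u) [CommRing R] [IsRegularRing R] (p : ℕ) [Fact p.Prime] [CharP R p]
    (h : IsExcellent R ∨ J0 R) : IsFPureRegular.{u, v} R p := by
  have hJ : J0 R := h.elim (fun h => j0_of_j2 R h.j2) id
  intro c hc
  exact fpure_regular R p hJ c hc

end Pool.Agent.Helper861_FPR
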