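import Pool.Agent.Helper861_FPR.Param

/-!
# Extending parameters
-/

set_option autoImplicit false

namespace Pool.Agent.Helper861_FPR

open IsLocalRing

theorem height_add_dim_quotient_le (A : Type*) [CommRing A] (Q : Ideal A) [Q.IsPrime] :
    (Q.height : WithBot ℕ∞) + ringKrullDim (A ⧸ Q) ≤ ringKrullDim A := by
  obtain ⟨a, ha⟩ : ∃ a : PrimeSpectrum A, a.asIdeal = Q := ⟨⟨Q, inferInstance⟩, rfl⟩
  have h1 : ringKrullDim (A ⧸ Q) = (Order.coheight a : WithBot ℕ∞) := by
    rw [ringKrullDim_quotient, Order.coheight_eq_krullDim_Ici]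
    have h2 : PrimeSpectrum.zeroLocus (Q : Set A) = Set.Ici a := by
      ext b
      rw [PrimeSpectrum.mem_zeroLocus, Set.mem_Ici, ← ha]
      rfl
    rw [h2]
  have h2 : Q.height = Order.height a := by
    rw [← ha]
    exact PrimeSpectrum.height_eq_orderHeight a
  have : Nonempty (PrimeSpectrum A) := ⟨a⟩
  rw [h1, h2, ringKrullDim, Order.krullDim_eq_iSup_height_add_coheight_of_nonempty]
  have h3 : Order.height a + Order.coheight a ≤
      ⨆ a : PrimeSpectrum A, Order.height a + Order.coheight a :=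
    le_iSup (fun a : PrimeSpectrum A => Order.height a + Order.coheight a) a
  exact_mod_cast h3

theorem extend_params {A : Type*} [CommRing A] [IsRegularLocalRing A] {h : ℕ} (x : Fin h → A)
    (Q : Ideal A) [Q.IsPrime] (hQ : Ideal.span (Set.range x) = Q) (hh : (h : ℕ∞) ≤ Q.height)
    (hreg : IsRegularLocalRing (A ⧸ Q)) :
    ∃ (e : ℕ) (y : Fin e → A), Ideal.span (Set.range (Sum.elim x y)) = maximalIdeal A ∧
      ringKrullDim A = (Fintype.card (Fin h ⊕ Fin e) : ℕ) := by
  obtain ⟨e, y', hy', hd⟩ := exists_params (A ⧸ Q)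
  choose y hy using fun i => Ideal.Quotient.mk_surjective (y' i)
  have hspan : Ideal.span (Set.range (Sum.elim x y)) = maximalIdeal A := by
    have h1 : (maximalIdeal A).map (Ideal.Quotient.mk Q) = maximalIdeal (A ⧸ Q) :=
      Pool.Agent.H379R3.map_mk_maximalIdeal Q
    have h2 : (Ideal.span (Set.range y)).map (Ideal.Quotient.mk Q) = maximalIdeal (A ⧸ Q) := by
      rw [Ideal.map_span, ← Set.range_comp, ← hy']
      congr 2
      ext i
      rw [Function.comp_apply, hy]
    have h3 := congrArg (Ideal.comap (Ideal.Quotient.mk Q)) (h1.trans h2.symm)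
    rw [Ideal.comap_map_of_surjective _ Ideal.Quotient.mk_surjective,
      Ideal.comap_map_of_surjective _ Ideal.Quotient.mk_surjective, ← RingHom.ker_eq_comap_bot,
      Ideal.mk_ker] at h3
    have h4 : Q ≤ maximalIdeal A := IsLocalRing.le_maximalIdeal (Ideal.IsPrime.ne_top inferInstance)
    rw [sup_eq_left.2 h4] at h3
    rw [Set.Sum.elim_range, Ideal.span_union, hQ, h3, sup_comm]
  refine ⟨e, y, hspan, le_antisymm ?_ ?_⟩
  · rw [← (isRegularLocalRing_iff A).1 inferInstance, ← hspan]
    have h1 : (Ideal.span (Set.range (Sum.elim x y))).spanFinrank ≤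
        Fintype.card (Fin h ⊕ Fin e) := by
      refine (Submodule.spanFinrank_span_le_ncard_of_finite (Set.toFinite _)).trans ?_
      rw [← Set.image_univ]
      refine (Set.ncard_image_le (Set.toFinite _)).trans ?_
      rw [Set.ncard_univ, Nat.card_eq_fintype_card]
    exact_mod_cast h1
  · have h1 := height_add_dim_quotient_le A Q
    rw [hd] at h1
    refine le_trans ?_ h1
    rw [Fintype.card_sum, Fintype.card_fin, Fintype.card_fin]
    push_cast
    have h2 : ((h : ℕ∞) : WithBot ℕ∞) ≤ (Q.height : WithBot ℕ∞) := by exact_mod_cast hh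
    exact add_le_add_left h2 _

end Pool.Agent.Helper861_FPR
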