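import Mathlib

/-!
# Powers of a good family of parameters

A family `z` of elements of a commutative ring is good when every subfamily generates a prime ideal
that contains no other member of the family.
-/

set_option autoImplicit false

namespace Pool.Agent.Helper861_FPR

variable {A : Type*} [CommRing A] {ι : Type*}

/-- Every subfamily generates a prime ideal containing no other member. -/
def Good (z : ι → A) : Prop :=
  ∀ s : Finset ι, (Ideal.span (z '' s)).IsPrime ∧ ∀ i ∉ s, z i ∉ Ideal.span (z '' s)

/-- The ideal generated by the powers `z i ^ a i`, `i ∈ s`. -/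
def Pw (z : ι → A) (a : ι → ℕ) (s : Finset ι) : Ideal A :=
  Ideal.span ((fun i => z i ^ a i) '' s)

theorem pw_insert [DecidableEq ι] (z : ι → A) (a : ι → ℕ) (s : Finset ι) (i : ι) :
    Pw z a (insert i s) = Ideal.span {z i ^ a i} ⊔ Pw z a s := by
  unfold Pw
  rw [Finset.coe_insert, Set.image_insert_eq, Ideal.span_insert]

theorem pw_congr (z : ι → A) {a b : ι → ℕ} {s : Finset ι} (h : ∀ i ∈ s, a i = b i) :
    Pw z a s = Pw z b s := by
  unfold Pw
  congr 1
  apply Set.image_congr
  intro i hi
  rw [h i hi]

theorem pw_one (z : ι → A) {a : ι → ℕ} {s : Finset ι} (h : ∀ i ∈ s, a i = 1) :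
    Pw z a s = Ideal.span (z '' s) := by
  unfold Pw
  congr 1
  apply Set.image_congr
  intro i hi
  rw [h i hi, pow_one]

theorem mem_pw_insert [DecidableEq ι] {z : ι → A} {a : ι → ℕ} {s : Finset ι} {i : ι} {x : A} :
    x ∈ Pw z a (insert i s) ↔ ∃ w : A, x - w * z i ^ a i ∈ Pw z a s := by
  rw [pw_insert, Ideal.mem_span_singleton_sup]
  constructor
  · rintro ⟨w, b, hb, h⟩
    exact ⟨w, by rw [← h]; simpa using hb⟩
  · rintro ⟨w, h⟩
    exact ⟨w, _, h, by ring⟩

/-- The ideal of the powers is primary. -/
theorem prim {z : ι → A} (hz : Good z) : ∀ (T : ℕ) (s : Finset ι) (a : ι → ℕ), (∀ i, 1 ≤ a i) →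
    ∑ i ∈ s, (a i - 1) = T → ∀ x ∉ Ideal.span (z '' s), ∀ t, x * t ∈ Pw z a s → t ∈ Pw z a s := by
  classical
  intro T
  induction T using Nat.strong_induction_on with
  | _ T ih =>
    intro s a ha hT x hx t hxt
    by_cases h1 : ∀ i ∈ s, a i = 1
    · rw [pw_one z h1] at hxt ⊢
      exact ((hz s).1.mem_or_mem hxt).resolve_left hx
    · push Not at h1
      obtain ⟨i, hi, hai⟩ := h1
      have hai2 : 2 ≤ a i := by
        have := ha i
        omega
      obtain ⟨n, hn, hn1⟩ : ∃ n, a i = n + 1 ∧ 1 ≤ n := ⟨a i - 1, by omega, by omega⟩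
      obtain ⟨s', hs', hs⟩ : ∃ s' : Finset ι, i ∉ s' ∧ s = insert i s' :=
        ⟨s.erase i, Finset.notMem_erase i s, (Finset.insert_erase hi).symm⟩
      subst hs
      have hsum : ∀ b : ι → ℕ, ∑ j ∈ insert i s', (b j - 1) = (b i - 1) + ∑ j ∈ s', (b j - 1) :=
        fun b => Finset.sum_insert hs'
      have hupd : ∀ m : ℕ, ∀ j ∈ s', Function.update a i m j = a j := by
        intro m j hj
        exact Function.update_of_ne (by rintro rfl; exact hs' hj) _ _
      have hupd1 : ∀ m : ℕ, 1 ≤ m → ∀ j, 1 ≤ Function.update a i m j := by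
        intro m hm j
        by_cases h : j = i
        · rw [h, Function.update_self]; exact hm
        · rw [Function.update_of_ne h]; exact ha j
      have hsum2 : ∀ m : ℕ, ∑ j ∈ s', (Function.update a i m j - 1) = ∑ j ∈ s', (a j - 1) := by
        intro m
        exact Finset.sum_congr rfl fun j hj => by rw [hupd m j hj]
      have hmem : ∀ (m : ℕ) (y : A), y ∈ Pw z (Function.update a i m) (insert i s') ↔
          ∃ w : A, y - w * z i ^ m ∈ Pw z a s' := by
        intro m y
        rw [mem_pw_insert, Function.update_self, pw_congr z (hupd m)]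
      rw [hsum] at hT
      -- step 1
      obtain ⟨w, hw⟩ := mem_pw_insert.1 hxt
      rw [hn] at hw
      have h2 : t ∈ Pw z (Function.update a i n) (insert i s') := by
        apply ih ((n - 1) + ∑ j ∈ s', (a j - 1)) (by omega) _ _ (hupd1 n hn1) ?_ x hx
        · rw [hmem]
          exact ⟨w * z i, by rw [pow_succ'] at hw; rw [mul_assoc]; exact hw⟩
        · rw [hsum, Function.update_self, hsum2]
      obtain ⟨u, hu⟩ := (hmem n t).1 h2
      -- step 2
      have h3 : z i ^ n * (x * u - z i * w) ∈ Pw z a s' := by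
        have h4 := Ideal.mul_mem_left _ x hu
        have h5 := (Pw z a s').sub_mem hw h4
        have h6 : x * t - w * z i ^ (n + 1) - x * (t - u * z i ^ n) =
            z i ^ n * (x * u - z i * w) := by ring
        rw [h6] at h5
        exact h5
      have h4 : x * u - z i * w ∈ Pw z a s' := by
        refine ih (∑ j ∈ s', (a j - 1)) (by omega) s' a ha rfl (z i ^ n) ?_ _ h3
        intro h
        exact (hz s').2 i hs' ((hz s').1.mem_of_pow_mem _ h)
      have h5 : u ∈ Pw z (Function.update a i 1) (insert i s') := by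
        apply ih ((1 - 1) + ∑ j ∈ s', (a j - 1)) (by omega) _ _ (hupd1 1 le_rfl) ?_ x hx
        · rw [hmem]
          exact ⟨w, by rw [pow_one, mul_comm w]; exact h4⟩
        · rw [hsum, Function.update_self, hsum2]
      obtain ⟨u', hu'⟩ := (hmem 1 u).1 h5
      rw [mem_pw_insert]
      refine ⟨u', ?_⟩
      have h6 := (Pw z a s').add_mem hu (Ideal.mul_mem_left _ (z i ^ n) hu')
      have h7 : t - u * z i ^ n + z i ^ n * (u - u' * z i ^ 1) = t - u' * z i ^ a i := by
        rw [hn]; ring
      rw [h7] at h6
      exact h6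

/-- A monomial is not in the ideal of the next powers. -/
theorem mono [Fintype ι] [DecidableEq ι] {z : ι → A} (hz : Good z) (k : ι → ℕ) (T : Finset ι) :
    ∏ i ∈ T, z i ^ k i ∉ Pw z (fun i => if i ∈ T then k i + 1 else 1) Finset.univ := by
  induction T using Finset.induction_on with
  | empty =>
    rw [pw_one z (by simp)]
    intro h
    apply (hz Finset.univ).1.ne_top
    rw [Ideal.eq_top_iff_one]
    simpa using h
  | insert i T hi ih =>
    intro h
    apply ih
    have hins : insert i (Finset.univ.erase i) = (Finset.univ : Finset ι) :=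
      Finset.insert_erase (Finset.mem_univ i)
    have hc : Pw z (fun j => if j ∈ T then k j + 1 else 1) (Finset.univ.erase i) =
        Pw z (fun j => if j ∈ insert i T then k j + 1 else 1) (Finset.univ.erase i) := by
      apply pw_congr
      intro j hj
      have hj' : j ≠ i := Finset.ne_of_mem_erase hj
      simp [hj']
    rw [← hins, mem_pw_insert, hc]
    rw [← hins, mem_pw_insert] at h
    obtain ⟨w, hw⟩ := h
    rw [Finset.prod_insert hi] at hw
    refine ⟨w, ?_⟩
    rw [if_neg hi, pow_one]
    have hw2 : z i ^ k i * (∏ j ∈ T, z j ^ k j - w * z i) ∈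
        Pw z (fun j => if j ∈ insert i T then k j + 1 else 1) (Finset.univ.erase i) := by
      rw [if_pos (Finset.mem_insert_self i T)] at hw
      have : z i ^ k i * (∏ j ∈ T, z j ^ k j - w * z i) =
          z i ^ k i * ∏ j ∈ T, z j ^ k j - w * z i ^ (k i + 1) := by ring
      rw [this]
      exact hw
    refine prim hz _ _ _ (fun j => ?_) rfl (z i ^ k i) ?_ _ hw2
    · split_ifs <;> omega
    · intro h
      exact (hz _).2 i (Finset.notMem_erase i _) ((hz _).1.mem_of_pow_mem _ h)

/-- High powers of the ideal of the parameters are in the ideal of the powers. -/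
theorem pow_le_pw [DecidableEq ι] (z : ι → A) (a : ι → ℕ) (s : Finset ι) :
    Ideal.span (z '' s) ^ (∑ i ∈ s, a i + 1) ≤ Pw z a s := by
  induction s using Finset.induction_on with
  | empty => simp [Pw]
  | insert i s hi ih =>
    rw [Finset.sum_insert hi, add_assoc, Finset.coe_insert, Set.image_insert_eq, Ideal.span_insert,
      pw_insert]
    refine (Ideal.sup_pow_add_le_pow_sup_pow).trans ?_
    refine sup_le_sup ?_ ih
    rw [Ideal.span_singleton_pow]

end Pool.Agent.Helper861_FPR
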