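import Pool.Agent.H379R3.Reg
import Pool.Agent.Helper861_FPR.Prim

/-!
# Parameters of regular local rings
-/

set_option autoImplicit false

namespace Pool.Agent.Helper861_FPR

open IsLocalRing

variable {A : Type*} [CommRing A] {ι : Type*}

/-- Quotients of a regular local ring by parameters are regular local rings. -/
theorem quot_regular [IsRegularLocalRing A] [Fintype ι] (z : ι → A)
    (hz : Ideal.span (Set.range z) = maximalIdeal A)
    (hd : ringKrullDim A = (Fintype.card ι : ℕ)) (s : Finset ι) :
    IsRegularLocalRing (A ⧸ Ideal.span (z '' s)) ∧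
      ringKrullDim (A ⧸ Ideal.span (z '' s)) = (Fintype.card ι - s.card : ℕ) := by
  classical
  have hle : Ideal.span (z '' s) ≤ maximalIdeal A := by
    rw [← hz]
    exact Ideal.span_mono (Set.image_subset_range _ _)
  have hne : Ideal.span (z '' s) ≠ ⊤ := fun h =>
    (maximalIdeal.isMaximal A).ne_top (top_le_iff.1 (h ▸ hle))
  have : Nontrivial (A ⧸ Ideal.span (z '' s)) := Ideal.Quotient.nontrivial_iff.2 hne
  have hloc : IsLocalRing (A ⧸ Ideal.span (z '' s)) :=
    IsLocalRing.of_surjective' (Ideal.Quotient.mk _) Ideal.Quotient.mk_surjective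
  have hmax : maximalIdeal (A ⧸ Ideal.span (z '' s)) =
      Ideal.span ((fun i => Ideal.Quotient.mk (Ideal.span (z '' s)) (z i)) ''
        ((Finset.univ \ s : Finset ι) : Set ι)) := by
    rw [← Pool.Agent.H379R3.map_mk_maximalIdeal, ← hz, Ideal.map_span]
    apply le_antisymm
    · rw [Ideal.span_le]
      rintro _ ⟨_, ⟨i, rfl⟩, rfl⟩
      by_cases h : i ∈ s
      · have : Ideal.Quotient.mk (Ideal.span (z '' s)) (z i) = 0 :=
          Ideal.Quotient.eq_zero_iff_mem.2 (Ideal.subset_span ⟨i, h, rfl⟩)
        rw [this]
        exact Ideal.zero_mem _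
      · exact Ideal.subset_span ⟨i, by simpa using h, rfl⟩
    · apply Ideal.span_mono
      rintro _ ⟨i, _, rfl⟩
      exact ⟨z i, ⟨i, rfl⟩, rfl⟩
  have hrank : (maximalIdeal (A ⧸ Ideal.span (z '' s))).spanFinrank ≤
      Fintype.card ι - s.card := by
    rw [hmax]
    refine (Submodule.spanFinrank_span_le_ncard_of_finite (Set.toFinite _)).trans ?_
    refine (Set.ncard_image_le (Set.toFinite _)).trans ?_
    rw [Set.ncard_coe_finset, Finset.card_univ_sdiff]
  have hdim : ((Fintype.card ι - s.card : ℕ) : WithBot ℕ∞) ≤
      ringKrullDim (A ⧸ Ideal.span (z '' s)) := by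
    have h1 := ringKrullDim_le_ringKrullDim_quotient_add_card (R := A) (s.image z) (by
      intro x hx
      rw [Finset.coe_image] at hx
      rw [SetLike.mem_coe, IsLocalRing.ringJacobson_eq_maximalIdeal]
      exact hle (Ideal.subset_span hx))
    rw [hd, Finset.coe_image] at h1
    have h2 : ((s.image z).card : WithBot ℕ∞) ≤ (s.card : ℕ) := by
      exact_mod_cast Finset.card_image_le
    have h3 := h1.trans (add_le_add_right h2 _)
    have h4 : ((Fintype.card ι : ℕ) : WithBot ℕ∞) =
        ((Fintype.card ι - s.card : ℕ) : WithBot ℕ∞) + (s.card : ℕ) := by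
      have h5 : Fintype.card ι - s.card + s.card = Fintype.card ι :=
        Nat.sub_add_cancel s.card_le_univ
      exact_mod_cast h5.symm
    rw [h4] at h3
    exact ENat.WithBot.add_le_add_natCast_right_iff.1 h3
  have : IsNoetherianRing (A ⧸ Ideal.span (z '' s)) := inferInstance
  have hreg : IsRegularLocalRing (A ⧸ Ideal.span (z '' s)) := by
    apply IsRegularLocalRing.of_spanFinrank_maximalIdeal_le
    exact le_trans (by exact_mod_cast hrank) hdim
  refine ⟨hreg, le_antisymm ?_ hdim⟩
  rw [← (isRegularLocalRing_iff _).1 hreg]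
  exact_mod_cast hrank

/-- A regular system of parameters is good. -/
theorem good [IsRegularLocalRing A] [Fintype ι] (z : ι → A)
    (hz : Ideal.span (Set.range z) = maximalIdeal A)
    (hd : ringKrullDim A = (Fintype.card ι : ℕ)) : Good z := by
  classical
  intro s
  obtain ⟨h1, h2⟩ := quot_regular z hz hd s
  refine ⟨?_, fun i hi hmem => ?_⟩
  · have := Pool.Agent.H379R3.isDomain (A ⧸ Ideal.span (z '' s))
    exact (Ideal.Quotient.isDomain_iff_prime _).1 this
  · obtain ⟨-, h4⟩ := quot_regular z hz hd (insert i s)
    have h5 : Ideal.span (z '' (insert i s : Finset ι)) = Ideal.span (z '' s) := by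
      rw [Finset.coe_insert, Set.image_insert_eq, Ideal.span_insert, sup_eq_right,
        Ideal.span_singleton_le_iff_mem]
      exact hmem
    rw [h5, h2, Finset.card_insert_of_notMem hi] at h4
    have h6 : Fintype.card ι - s.card = Fintype.card ι - (s.card + 1) := by exact_mod_cast h4
    have h7 : (insert i s).card ≤ Fintype.card ι := Finset.card_le_univ _
    rw [Finset.card_insert_of_notMem hi] at h7
    omega

/-- Regular systems of parameters exist. -/
theorem exists_params (B : Type*) [CommRing B] [IsRegularLocalRing B] :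
    ∃ (h : ℕ) (x : Fin h → B), Ideal.span (Set.range x) = maximalIdeal B ∧
      ringKrullDim B = (h : ℕ) := by
  have hfg : (maximalIdeal B).FG := (maximalIdeal B).fg_of_isNoetherianRing
  have hfin := Submodule.FG.finite_generators hfg
  have hcard := Submodule.FG.generators_ncard hfg
  have : Fintype (maximalIdeal B).generators := hfin.fintype
  let e := Fintype.equivFin (maximalIdeal B).generators
  refine ⟨Fintype.card (maximalIdeal B).generators, fun i => (e.symm i : B), ?_, ?_⟩
  · have h1 : (Set.range fun i => (e.symm i : B)) = (maximalIdeal B).generators := by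
      ext y
      constructor
      · rintro ⟨i, rfl⟩
        exact (e.symm i).2
      · intro hy
        exact ⟨e ⟨y, hy⟩, by simp⟩
    rw [h1]
    exact Submodule.span_generators _
  · have h1 := (isRegularLocalRing_iff B).1 inferInstance
    rw [← h1, ← hcard, Set.ncard_eq_toFinset_card', Set.toFinset_card]

/-- The leading monomial of a nonzero element. -/
theorem exists_lead [IsLocalRing A] [IsNoetherianRing A] [DecidableEq ι] {z : ι → A}
    (hm : ∀ i, z i ∈ maximalIdeal A) {c : A} (hc : c ≠ 0) (s : Finset ι) :
    ∃ (k : ι → ℕ) (c' : A), c' ∉ Ideal.span (z '' s) ∧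
      c - c' * ∏ i ∈ s, z i ^ k i ∈ Pw z (fun i => k i + 1) s := by
  induction s using Finset.induction_on with
  | empty =>
    refine ⟨fun _ => 0, c, by simpa using hc, by simp⟩
  | insert i s hi ih =>
    obtain ⟨k, c', h1, h2⟩ := ih
    set J : Ideal A := Ideal.span (z '' s) with hJ
    -- Krull
    have hex : ∃ n : ℕ, c' ∉ Ideal.span {z i} ^ n ⊔ J := by
      by_contra hcon
      push Not at hcon
      apply h1
      have h3 : (Ideal.Quotient.mk J c') ∈ (⨅ n : ℕ, maximalIdeal A ^ n • (⊤ : Submodule A (A ⧸ J))) := by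
        rw [Submodule.mem_iInf]
        intro n
        obtain ⟨a, ha, b, hb, hab⟩ := Submodule.mem_sup.1 (hcon n)
        have h4 : Ideal.Quotient.mk J c' = a • (1 : A ⧸ J) := by
          rw [← hab, map_add, Ideal.Quotient.eq_zero_iff_mem.2 hb, add_zero, Algebra.smul_def,
            mul_one]
          rfl
        rw [h4]
        apply Submodule.smul_mem_smul _ Submodule.mem_top
        have h5 : Ideal.span {z i} ≤ maximalIdeal A := by
          rw [Ideal.span_singleton_le_iff_mem]
          exact hm i
        exact Ideal.pow_right_mono h5 n ha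
      rw [Ideal.iInf_pow_smul_eq_bot_of_isLocalRing _ (maximalIdeal.isMaximal A).ne_top,
        Submodule.mem_bot] at h3
      exact Ideal.Quotient.eq_zero_iff_mem.1 h3
    classical
    obtain ⟨n, hn, hmin⟩ : ∃ n, c' ∉ Ideal.span {z i} ^ (n + 1) ⊔ J ∧
        c' ∈ Ideal.span {z i} ^ n ⊔ J := by
      have h0 : Nat.find hex ≠ 0 := by
        intro h
        apply Nat.find_spec hex
        rw [h, pow_zero, Ideal.one_eq_top, top_sup_eq]
        trivial
      obtain ⟨n, hn⟩ := Nat.exists_eq_succ_of_ne_zero h0
      refine ⟨n, ?_, ?_⟩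
      · have := Nat.find_spec hex
        rwa [hn] at this
      · have := Nat.find_min hex (m := n) (by omega)
        simpa using this
    rw [Ideal.span_singleton_pow, Ideal.mem_span_singleton_sup] at hmin
    obtain ⟨c'', v, hv, hcv⟩ := hmin
    refine ⟨Function.update k i n, c'', ?_, ?_⟩
    · rw [Finset.coe_insert, Set.image_insert_eq, Ideal.span_insert, ← hJ,
        Ideal.mem_span_singleton_sup]
      rintro ⟨w, v', hv', hw⟩
      apply hn
      rw [Ideal.span_singleton_pow, Ideal.mem_span_singleton_sup]
      refine ⟨w, v' * z i ^ n + v, J.add_mem (J.mul_mem_right _ hv') hv, ?_⟩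
      rw [← hcv, ← hw]
      ring
    · have hprod : ∏ j ∈ s, z j ^ Function.update k i n j = ∏ j ∈ s, z j ^ k j := by
        apply Finset.prod_congr rfl
        intro j hj
        rw [Function.update_of_ne (by rintro rfl; exact hi hj)]
      rw [Finset.prod_insert hi, hprod, Function.update_self]
      have hpw : Pw z (fun j => Function.update k i n j + 1) s = Pw z (fun j => k j + 1) s := by
        apply pw_congr
        intro j hj
        show Function.update k i n j + 1 = k j + 1
        rw [Function.update_of_ne (by rintro rfl; exact hi hj)]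
      rw [mem_pw_insert]
      refine ⟨0, ?_⟩
      rw [zero_mul, sub_zero, hpw]
      have h5 : v * ∏ j ∈ s, z j ^ k j ∈ Pw z (fun j => k j + 1) s := by
        have h6 : J ≤ Submodule.comap (LinearMap.mulRight A (∏ j ∈ s, z j ^ k j))
            (Pw z (fun j => k j + 1) s) := by
          rw [hJ, Ideal.span, Submodule.span_le]
          rintro _ ⟨j, hj, rfl⟩
          change z j * ∏ j ∈ s, z j ^ k j ∈ Pw z (fun j => k j + 1) s
          rw [← Finset.mul_prod_erase s _ hj, ← mul_assoc, ← pow_succ']
          exact Ideal.mul_mem_right _ _ (Ideal.subset_span ⟨j, hj, rfl⟩)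
        exact h6 hv
      have h7 : c - c'' * (z i ^ n * ∏ j ∈ s, z j ^ k j) =
          (c - c' * ∏ j ∈ s, z j ^ k j) + v * ∏ j ∈ s, z j ^ k j := by
        rw [← hcv]
        ring
      rw [h7]
      exact (Pw z (fun j => k j + 1) s).add_mem h2 h5

end Pool.Agent.Helper861_FPR
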