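import Mathlib

/-!
# Injectivity on tensor products from the maximal ideal
-/

set_option autoImplicit false

namespace Pool.Agent.Helper861_FPR

open TensorProduct

variable {A : Type*} [CommRing A] (N : Type*) [AddCommGroup N] [Module A N]

/-- One simple step. -/
theorem step (m : Ideal A) [hmax : m.IsMaximal] (hinj : Function.Injective (m.subtype.rTensor N))
    {L : Type*} [AddCommGroup L] [Module A L] (K : Submodule A L) (l : L) (hl : l ∉ K)
    (hm : ∀ a ∈ m, a • l ∈ K) :
    Function.Injective ((Submodule.inclusion (le_sup_left : K ≤ K ⊔ Submodule.span A {l})).rTensor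
      N) := by
  have hlm : ∀ a : A, a • l ∈ K → a ∈ m := by
    intro a ha
    by_contra hcon
    obtain ⟨b, μ, hμ, hb⟩ := hmax.exists_inv hcon
    apply hl
    have h1 := K.add_mem (K.smul_mem b ha) (hm μ hμ)
    rw [smul_smul, ← add_smul, hb, one_smul] at h1
    exact h1
  obtain ⟨f, hf⟩ : ∃ f : m →ₗ[A] K × A, ∀ a : m, ((f a).1 : L) = -((a : A) • l) ∧
      (f a).2 = (a : A) := by
    refine ⟨LinearMap.prod (-(LinearMap.codRestrict K
      ((LinearMap.toSpanSingleton A L l).comp m.subtype) (fun a => hm a a.2))) m.subtype,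
      fun a => ⟨?_, rfl⟩⟩
    simp
  obtain ⟨g, hg⟩ : ∃ g : K × A →ₗ[A] (K ⊔ Submodule.span A {l} : Submodule A L),
      ∀ q : K × A, ((g q : L)) = (q.1 : L) + q.2 • l := by
    refine ⟨LinearMap.coprod (Submodule.inclusion le_sup_left)
      (LinearMap.codRestrict _ (LinearMap.toSpanSingleton A L l) (fun a => ?_)), fun q => ?_⟩
    · exact Submodule.mem_sup_right (Submodule.smul_mem _ _ (Submodule.mem_span_singleton_self l))
    · simp
  have hgs : Function.Surjective g := by
    rintro ⟨y, hy⟩
    obtain ⟨k, hk, w, hw, hkw⟩ := Submodule.mem_sup.1 hy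
    obtain ⟨a, ha⟩ := Submodule.mem_span_singleton.1 hw
    refine ⟨(⟨k, hk⟩, a), Subtype.ext ?_⟩
    rw [hg]
    simp only
    rw [ha, hkw]
  have hex : Function.Exact f g := by
    intro q
    constructor
    · intro h
      have h1 : (q.1 : L) + q.2 • l = 0 := by
        rw [← hg, h]
        rfl
      have h2 : q.2 • l ∈ K := by
        have : q.2 • l = -(q.1 : L) := (neg_eq_of_add_eq_zero_right h1).symm
        rw [this]
        exact K.neg_mem q.1.2
      refine ⟨⟨q.2, hlm _ h2⟩, ?_⟩
      obtain ⟨h3, h4⟩ := hf ⟨q.2, hlm _ h2⟩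
      refine Prod.ext (Subtype.ext ?_) h4
      rw [h3]
      simp only
      exact neg_eq_of_add_eq_zero_left h1
    · rintro ⟨a, rfl⟩
      apply Subtype.ext
      rw [hg, (hf a).1, (hf a).2]
      simp
  have hexT := rTensor_exact N hex hgs
  rw [injective_iff_map_eq_zero]
  intro t ht
  have h1 : (g.rTensor N) ((LinearMap.inl A K A).rTensor N t) = 0 := by
    rw [← LinearMap.comp_apply, ← LinearMap.rTensor_comp]
    have : g ∘ₗ LinearMap.inl A K A = Submodule.inclusion le_sup_left := by
      ext k
      rw [LinearMap.comp_apply, hg]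
      simp
    rw [this]
    exact ht
  obtain ⟨s, hs⟩ := (hexT _).1 h1
  have h2 : m.subtype.rTensor N s = 0 := by
    have h3 : (LinearMap.snd A K A).rTensor N (f.rTensor N s) = m.subtype.rTensor N s := by
      rw [← LinearMap.comp_apply, ← LinearMap.rTensor_comp]
      congr 2
      ext a
      exact (hf a).2
    rw [← h3, hs, ← LinearMap.comp_apply, ← LinearMap.rTensor_comp, LinearMap.snd_comp_inl,
      LinearMap.rTensor_zero, LinearMap.zero_apply]
  have h3 : s = 0 := hinj (by rw [h2, map_zero])
  rw [h3, map_zero] at hs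
  have h4 : (LinearMap.fst A K A).rTensor N ((LinearMap.inl A K A).rTensor N t) = t := by
    rw [← LinearMap.comp_apply, ← LinearMap.rTensor_comp, LinearMap.fst_comp_inl,
      LinearMap.rTensor_id, LinearMap.id_apply]
  rw [← h4, ← hs, map_zero]

/-- Submodules of a Noetherian module killed by a power of `m`. -/
theorem chain (m : Ideal A) [hmax : m.IsMaximal] (hinj : Function.Injective (m.subtype.rTensor N))
    {L : Type*} [AddCommGroup L] [Module A L] [IsNoetherian A L] (n : ℕ)
    (hn : ∀ a ∈ m ^ n, ∀ l : L, a • l = 0) (K : Submodule A L) :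
    Function.Injective (K.subtype.rTensor N) := by
  induction K using IsNoetherian.induction with
  | _ K ih =>
    by_cases hK : K = ⊤
    · subst hK
      have : (⊤ : Submodule A L).subtype = (Submodule.topEquiv : _ ≃ₗ[A] L).toLinearMap := rfl
      rw [this]
      exact (LinearEquiv.rTensor N Submodule.topEquiv).injective
    · -- a point of the quotient killed by `m`
      obtain ⟨l, hl, hml⟩ : ∃ l : L, l ∉ K ∧ ∀ a ∈ m, a • l ∈ K := by
        by_contra hcon
        push Not at hcon
        obtain ⟨l, hl⟩ : ∃ l : L, l ∉ K := by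
          by_contra h
          push Not at h
          exact hK (Submodule.eq_top_iff'.2 h)
        have key : ∀ j : ℕ, ∃ a ∈ m ^ j, a • l ∉ K := by
          intro j
          induction j with
          | zero => exact ⟨1, by simp, by rwa [one_smul]⟩
          | succ j ihj =>
            obtain ⟨a, ha, hal⟩ := ihj
            obtain ⟨b, hb, hbl⟩ := hcon _ hal
            refine ⟨b * a, ?_, ?_⟩
            · rw [pow_succ']
              exact Ideal.mul_mem_mul hb ha
            · rw [mul_smul]
              exact hbl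
        obtain ⟨a, ha, hal⟩ := key n
        rw [hn a ha] at hal
        exact hal K.zero_mem
      have h1 := step N m hinj K l hl hml
      have hlt : K < K ⊔ Submodule.span A {l} := by
        refine lt_of_le_of_ne le_sup_left fun h => hl ?_
        rw [h]
        exact Submodule.mem_sup_right (Submodule.mem_span_singleton_self l)
      have h2 := ih _ hlt
      have h3 : K.subtype = (K ⊔ Submodule.span A {l}).subtype ∘ₗ
          Submodule.inclusion le_sup_left := rfl
      rw [h3, LinearMap.rTensor_comp]
      exact h2.comp h1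

/-- If `u ∉ J` where `J` contains `m N`, then `z ⊗ u` is not zero. -/
theorem tmul_ne_zero_of_finite [IsNoetherianRing A] (m : Ideal A) [hmax : m.IsMaximal]
    (hinj : Function.Injective (m.subtype.rTensor N)) (u : N)
    (hu : u ∉ (m • ⊤ : Submodule A N)) {L : Type*} [AddCommGroup L] [Module A L]
    [Module.Finite A L] (n : ℕ) (hn : ∀ a ∈ m ^ n, ∀ l : L, a • l = 0) (z : L) (hz : z ≠ 0) :
    z ⊗ₜ[A] u ≠ 0 := by
  intro h
  have h1 : Function.Injective ((Submodule.span A {z}).subtype.rTensor N) :=
    chain N m hinj n hn _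
  set z' : Submodule.span A {z} := ⟨z, Submodule.mem_span_singleton_self z⟩ with hz'
  have h2 : z' ⊗ₜ[A] u = 0 := by
    apply h1
    rw [LinearMap.rTensor_tmul, map_zero]
    exact h
  -- the presentation of the cyclic module
  obtain ⟨g, hg⟩ : ∃ g : A →ₗ[A] Submodule.span A {z}, ∀ a, g a = a • z' :=
    ⟨LinearMap.toSpanSingleton A _ z', fun a => rfl⟩
  have hgs : Function.Surjective g := by
    rintro ⟨y, hy⟩
    obtain ⟨a, ha⟩ := Submodule.mem_span_singleton.1 hy
    exact ⟨a, by rw [hg]; exact Subtype.ext ha⟩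
  have hexT := rTensor_exact N (LinearMap.exact_subtype_ker_map g) hgs
  have h3 : g.rTensor N ((1 : A) ⊗ₜ[A] u) = 0 := by
    rw [LinearMap.rTensor_tmul, hg, one_smul]
    exact h2
  obtain ⟨s, hs⟩ := (hexT _).1 h3
  have hker : LinearMap.ker g ≤ m := by
    intro a ha
    by_contra hcon
    obtain ⟨b, μ, hμ, hb⟩ := hmax.exists_inv hcon
    -- the annihilator of `z` is contained in `m`
    have hzk : ∀ k : ℕ, ∃ ν ∈ m ^ k, z = ν • z := by
      intro k
      induction k with
      | zero => exact ⟨1, by simp, (one_smul _ _).symm⟩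
      | succ k ihk =>
        obtain ⟨ν, hν, hνz⟩ := ihk
        have h4 : a • z = 0 := by
          have h5 : g a = 0 := ha
          rw [hg] at h5
          exact congrArg Subtype.val h5
        have h6 : μ • z = z := by
          have h7 : (b * a + μ) • z = z := by rw [hb, one_smul]
          rw [add_smul, mul_smul, h4, smul_zero, zero_add] at h7
          exact h7
        refine ⟨μ * ν, ?_, ?_⟩
        · rw [pow_succ']
          exact Ideal.mul_mem_mul hμ hν
        · rw [mul_smul, ← hνz, h6]
    obtain ⟨ν, hν, hνz⟩ := hzk n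
    rw [hn ν hν] at hνz
    exact hz hνz
  apply hu
  have h4 : ∀ s : LinearMap.ker g ⊗[A] N,
      TensorProduct.lid A N ((LinearMap.ker g).subtype.rTensor N s) ∈ (m • ⊤ : Submodule A N) := by
    intro s
    induction s with
    | zero => rw [map_zero, map_zero]; exact Submodule.zero_mem _
    | tmul a x =>
      rw [LinearMap.rTensor_tmul, TensorProduct.lid_tmul]
      exact Submodule.smul_mem_smul (hker a.2) Submodule.mem_top
    | add s t hs ht =>
      rw [map_add, map_add]
      exact Submodule.add_mem _ hs ht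
  have h5 := h4 s
  rw [hs, TensorProduct.lid_tmul, one_smul] at h5
  exact h5

/-- In a Noetherian local ring the elements `u ∉ m N` are pure. -/
theorem tmul_ne_zero [IsNoetherianRing A] [IsLocalRing A]
    (hinj : Function.Injective ((IsLocalRing.maximalIdeal A).subtype.rTensor N)) (u : N)
    (hu : u ∉ (IsLocalRing.maximalIdeal A • ⊤ : Submodule A N)) {L : Type*} [AddCommGroup L]
    [Module A L] (z : L) (hz : z ≠ 0) : z ⊗ₜ[A] u ≠ 0 := by
  intro h
  set m := IsLocalRing.maximalIdeal A with hm
  have hfg : (Submodule.span A {z}).FG := Submodule.fg_span_singleton z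
  have h1 : (Submodule.span A {z}).subtype.rTensor N
      ((⟨z, Submodule.mem_span_singleton_self z⟩ : Submodule.span A {z}) ⊗ₜ[A] u) = 0 := by
    rw [LinearMap.rTensor_tmul]
    exact h
  obtain ⟨Q, hPQ, hQ, h2⟩ := TensorProduct.eq_zero_of_fg_of_subtype_eq_zero hfg h1
  rw [LinearMap.rTensor_tmul] at h2
  set zQ : Q := Submodule.inclusion hPQ ⟨z, Submodule.mem_span_singleton_self z⟩ with hzQ
  have hzQ0 : zQ ≠ 0 := by
    intro h
    exact hz (congrArg Subtype.val h)
  have : Module.Finite A Q := Module.Finite.iff_fg.2 hQ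
  obtain ⟨n, hn⟩ : ∃ n : ℕ, zQ ∉ (m ^ n • ⊤ : Submodule A Q) := by
    by_contra hcon
    push Not at hcon
    apply hzQ0
    have h3 : zQ ∈ (⨅ n : ℕ, m ^ n • (⊤ : Submodule A Q)) := (Submodule.mem_iInf _).2 hcon
    rwa [Ideal.iInf_pow_smul_eq_bot_of_isLocalRing _ (IsLocalRing.maximalIdeal.isMaximal A).ne_top,
      Submodule.mem_bot] at h3
  set q := (m ^ n • ⊤ : Submodule A Q).mkQ with hq
  have h3 : q zQ ≠ 0 := by
    rw [hq, Submodule.mkQ_apply]
    intro h
    exact hn ((Submodule.Quotient.mk_eq_zero _).1 h)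
  refine tmul_ne_zero_of_finite N m hinj u hu n ?_ (q zQ) h3 ?_
  · intro a ha l
    obtain ⟨l, rfl⟩ := Submodule.mkQ_surjective _ l
    rw [← map_smul, ← LinearMap.mem_ker, Submodule.ker_mkQ]
    exact Submodule.smul_mem_smul ha Submodule.mem_top
  · rw [← LinearMap.rTensor_tmul, h2, map_zero]

end Pool.Agent.Helper861_FPR
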