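import Pool.Agent.Helper861_FPR.Defs
import Pool.Agent.Helper861_FPR.Step
import Pool.Agent.Helper861_FPR.Param

/-!
# Purity in regular local rings
-/

set_option autoImplicit false

namespace Pool.Agent.Helper861_FPR

open TensorProduct IsLocalRing

variable {A : Type*} [CommRing A] (p : ℕ) [ExpChar A p] (e : ℕ)

/-- The submodule of `F^e_* A` given by an ideal. -/
def idF (I : Ideal A) : Submodule A (FPush A p e) where
  carrier := {x | (toF A p e).symm x ∈ I}
  zero_mem' := by
    show (toF A p e).symm 0 ∈ I
    rw [map_zero]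
    exact I.zero_mem
  add_mem' := by
    intro x y hx hy
    show (toF A p e).symm (x + y) ∈ I
    rw [map_add]
    exact I.add_mem hx hy
  smul_mem' := by
    intro a x hx
    show (a ^ p ^ e * (toF A p e).symm x) ∈ I
    exact I.mul_mem_left _ hx

theorem mem_idF (I : Ideal A) (x : A) : toF A p e x ∈ idF p e I ↔ x ∈ I := Iff.rfl

/-- The image of `I ⊗ F^e_* A` in `F^e_* A`. -/
theorem lid_mem {ι : Type*} {z : ι → A} {s : Finset ι}
    (t : (Ideal.span (z '' s) : Ideal A) ⊗[A] FPush A p e) :
    TensorProduct.lid A (FPush A p e)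
      ((Submodule.subtype (Ideal.span (z '' s))).rTensor (FPush A p e) t) ∈
      idF p e (Pw z (fun _ => p ^ e) s) := by
  have hle : ∀ a ∈ Ideal.span (z '' s), a ^ p ^ e ∈ Pw z (fun _ => p ^ e) s := by
    intro a ha
    have h1 : Ideal.span (z '' s) ≤
        (Pw z (fun _ => p ^ e) s).comap (iterateFrobenius A p e) := by
      rw [Ideal.span_le]
      rintro _ ⟨j, hj, rfl⟩
      rw [SetLike.mem_coe, Ideal.mem_comap, iterateFrobenius_def]
      exact Ideal.subset_span ⟨j, hj, rfl⟩
    exact h1 ha
  induction t with
  | zero => rw [map_zero, map_zero]; exact Submodule.zero_mem _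
  | tmul a x =>
    rw [LinearMap.rTensor_tmul, TensorProduct.lid_tmul]
    show ((a : A) ^ p ^ e * (toF A p e).symm x) ∈ Pw z (fun _ => p ^ e) s
    exact Ideal.mul_mem_right _ _ (hle _ a.2)
  | add s t hs ht =>
    rw [map_add, map_add]
    exact Submodule.add_mem _ hs ht

/-- `I ⊗ F^e_* A → A ⊗ F^e_* A` is injective for the ideals generated by parameters. -/
theorem inj_good {ι : Type*} {z : ι → A} (hz : Good z) (s : Finset ι) :
    Function.Injective ((Submodule.subtype (Ideal.span (z '' s))).rTensor (FPush A p e)) := by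
  classical
  induction s using Finset.induction_on with
  | empty =>
    have h1 : Subsingleton (Ideal.span (z '' ((∅ : Finset ι) : Set ι))) := by
      rw [Finset.coe_empty, Set.image_empty, Ideal.span_empty]
      infer_instance
    exact Function.injective_of_subsingleton _
  | insert i s hi ih =>
    have hle : Ideal.span (z '' s) ≤ Ideal.span (z '' (insert i s : Finset ι)) := by
      apply Ideal.span_mono
      apply Set.image_mono
      rw [Finset.coe_insert]
      exact Set.subset_insert _ _
    have hzi : z i ∈ Ideal.span (z '' (insert i s : Finset ι)) :=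
      Ideal.subset_span ⟨i, by simp, rfl⟩
    rw [injective_iff_map_eq_zero]
    intro t ht
    -- decomposition
    have hdec : ∀ t : (Ideal.span (z '' (insert i s : Finset ι)) : Ideal A) ⊗[A] FPush A p e,
        ∃ (t' : (Ideal.span (z '' s) : Ideal A) ⊗[A] FPush A p e) (x : FPush A p e),
          t = (Submodule.inclusion hle).rTensor (FPush A p e) t' +
            (⟨z i, hzi⟩ : Ideal.span (z '' (insert i s : Finset ι))) ⊗ₜ[A] x := by
      intro t
      induction t with
      | zero => exact ⟨0, 0, by simp⟩
      | tmul a x =>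
        obtain ⟨a, ha⟩ := a
        have ha' := ha
        rw [Finset.coe_insert, Set.image_insert_eq, Ideal.span_insert,
          Ideal.mem_span_singleton_sup] at ha'
        obtain ⟨w, b, hb, hab⟩ := ha'
        refine ⟨(⟨b, hb⟩ : Ideal.span (z '' s)) ⊗ₜ x, w • x, ?_⟩
        rw [LinearMap.rTensor_tmul, TensorProduct.tmul_smul, TensorProduct.smul_tmul',
          ← TensorProduct.add_tmul]
        congr 1
        apply Subtype.ext
        simp only [Submodule.coe_add, Submodule.coe_inclusion, Submodule.coe_smul, smul_eq_mul]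
        rw [← hab]
        ring
      | add t₁ t₂ h₁ h₂ =>
        obtain ⟨a₁, x₁, h₁⟩ := h₁
        obtain ⟨a₂, x₂, h₂⟩ := h₂
        refine ⟨a₁ + a₂, x₁ + x₂, ?_⟩
        rw [h₁, h₂, map_add, TensorProduct.tmul_add]
        abel
    obtain ⟨t', x, hx⟩ := hdec t
    -- the coefficient
    have hcomp : (Submodule.subtype (Ideal.span (z '' (insert i s : Finset ι)))).rTensor
        (FPush A p e) ∘ₗ (Submodule.inclusion hle).rTensor (FPush A p e) =
        (Submodule.subtype (Ideal.span (z '' s))).rTensor (FPush A p e) := by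
      rw [← LinearMap.rTensor_comp]
      rfl
    have h1 : x ∈ idF p e (Pw z (fun _ => p ^ e) s) := by
      have h2 := lid_mem p e t'
      have h3 := congrArg (TensorProduct.lid A (FPush A p e)) ht
      rw [hx, map_add, ← LinearMap.comp_apply, hcomp, LinearMap.rTensor_tmul, map_add,
        TensorProduct.lid_tmul, map_zero] at h3
      have h4 : z i • x ∈ idF p e (Pw z (fun _ => p ^ e) s) := by
        have : z i • x = -(TensorProduct.lid A (FPush A p e)
          ((Submodule.subtype (Ideal.span (z '' s))).rTensor (FPush A p e) t')) :=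
          (neg_eq_of_add_eq_zero_right h3).symm
        rw [this]
        exact Submodule.neg_mem _ h2
      have h5 : z i ^ p ^ e * (toF A p e).symm x ∈ Pw z (fun _ => p ^ e) s := h4
      refine prim hz _ _ _ (fun _ => Nat.one_le_pow _ _ (expChar_pos A p)) rfl _ ?_ _ h5
      intro h
      exact (hz s).2 i hi ((hz s).1.mem_of_pow_mem _ h)
    -- the element `z i ⊗ x` comes from the smaller ideal
    have h2 : ∃ t'' : (Ideal.span (z '' s) : Ideal A) ⊗[A] FPush A p e,
        (Submodule.inclusion hle).rTensor (FPush A p e) t'' =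
          (⟨z i, hzi⟩ : Ideal.span (z '' (insert i s : Finset ι))) ⊗ₜ[A] x := by
      have h1' : (toF A p e).symm x ∈ Submodule.span A ((fun i => z i ^ p ^ e) '' (s : Set ι)) := h1
      obtain ⟨c, hc⟩ := (Submodule.mem_span_image_finset_iff_exists_fun A).1 h1'
      have hx2 : x = ∑ j : s, z j • toF A p e (c j) := by
        have h3 : x = toF A p e (∑ j : s, c j • z j ^ p ^ e) := by
          rw [hc, AddEquiv.apply_symm_apply]
        rw [h3, map_sum]
        apply Finset.sum_congr rfl
        intro j _
        rw [smul_toF, smul_eq_mul, mul_comm]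
      have hj : ∀ j : s, z j * z i ∈ Ideal.span (z '' (s : Set ι)) := fun j =>
        Ideal.mul_mem_right _ _ (Ideal.subset_span (Set.mem_image_of_mem z j.2))
      refine ⟨∑ j : s, (⟨z j * z i, hj j⟩ : Ideal.span (z '' (s : Set ι))) ⊗ₜ[A]
        toF A p e (c j), ?_⟩
      rw [map_sum, hx2, TensorProduct.tmul_sum]
      apply Finset.sum_congr rfl
      intro j _
      rw [LinearMap.rTensor_tmul, TensorProduct.tmul_smul, TensorProduct.smul_tmul']
      rfl
    obtain ⟨t'', ht''⟩ := h2
    have h3 : t = (Submodule.inclusion hle).rTensor (FPush A p e) (t' + t'') := by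
      rw [hx, map_add, ht'']
    have h4 : t' + t'' = 0 := by
      apply ih
      rw [← hcomp, LinearMap.comp_apply, ← h3, ht, map_zero]
    rw [h3, h4, map_zero]

/-- Purity in regular local rings. -/
theorem tmul_ne_zero_regular [IsRegularLocalRing A] (c : A)
    (hc : c ∉ maximalIdeal A ^ p ^ e) {L : Type*} [AddCommGroup L] [Module A L] (l : L)
    (hl : l ≠ 0) : l ⊗ₜ[A] toF A p e c ≠ 0 := by
  classical
  obtain ⟨h, x, hx, hd⟩ := exists_params A
  have hgood : Good x := good x hx (by rw [hd, Fintype.card_fin])
  have h1 := inj_good p e hgood Finset.univ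
  have h2 : Ideal.span (x '' (Finset.univ : Finset (Fin h))) = maximalIdeal A := by
    rw [Finset.coe_univ, Set.image_univ, hx]
  rw [h2] at h1
  apply tmul_ne_zero (FPush A p e) h1 _ _ l hl
  intro hmem
  apply hc
  have h3 : (maximalIdeal A • ⊤ : Submodule A (FPush A p e)) ≤
      idF p e (maximalIdeal A ^ p ^ e) := by
    rw [Submodule.smul_le]
    intro a ha y _
    show (a ^ p ^ e * (toF A p e).symm y) ∈ maximalIdeal A ^ p ^ e
    exact Ideal.mul_mem_right _ _ (Ideal.pow_mem_pow ha _)
  exact h3 hmem

end Pool.Agent.Helper861_FPR
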