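import Pool.Agent.Helper861_FPR.Bound
import Pool.Agent.Helper861_FPR.Frob

/-!
# F-pure regularity of regular rings with nonempty regular loci
-/

set_option autoImplicit false

namespace Pool.Agent.Helper861_FPR

open TensorProduct IsLocalRing

universe u v

/-- The localization of a ring of characteristic `p` has characteristic `p`. -/
theorem charP_loc (R : Type u) [CommRing R] (p : ℕ) [hp : Fact p.Prime] [CharP R p]
    (m : Ideal R) [m.IsPrime] : CharP (Localization.AtPrime m) p := by
  rw [CharP.charP_iff_prime_eq_zero hp.out]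
  have h1 : ((p : ℕ) : Localization.AtPrime m) = algebraMap R _ (p : R) := by
    rw [map_natCast]
  rw [h1, CharP.cast_eq_zero, map_zero]

/-- Purity is local. -/
theorem pure_of_local (R : Type u) [CommRing R] [IsRegularRing R] (p : ℕ) [hp : Fact p.Prime]
    [CharP R p] (e : ℕ) (c : R)
    (hc : ∀ (m : Ideal R) [m.IsPrime], algebraMap R (Localization.AtPrime m) c ∉
      maximalIdeal (Localization.AtPrime m) ^ p ^ e) : IsPure.{u, v} (lam R p e c) := by
  intro P _ _
  rw [injective_iff_map_eq_zero]
  intro t ht
  set z : P := TensorProduct.lid R P t with hz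
  have htz : t = (1 : R) ⊗ₜ[R] z := by
    rw [hz, ← TensorProduct.lid_symm_apply, LinearEquiv.symm_apply_apply]
  have h1 : toF R p e c ⊗ₜ[R] z = 0 := by
    rw [htz, LinearMap.rTensor_tmul] at ht
    have : lam R p e c 1 = toF R p e c := by
      rw [lam, LinearMap.toSpanSingleton_apply, one_smul]
    rwa [this] at ht
  suffices hz0 : z = 0 by rw [htz, hz0, TensorProduct.tmul_zero]
  by_contra hne
  -- a maximal ideal containing the annihilator
  obtain ⟨m, hm, hle⟩ := Ideal.exists_le_maximal (Module.annihilator R (Submodule.span R {z}))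
    (by
      intro h
      apply hne
      have h2 : (1 : R) ∈ Module.annihilator R (Submodule.span R {z}) := by rw [h]; trivial
      have h3 := (Module.mem_annihilator.1 h2)
        ⟨z, Submodule.mem_span_singleton_self z⟩
      rw [one_smul] at h3
      exact congrArg Subtype.val h3)
  have hmp : m.IsPrime := hm.isPrime
  have hann : ∀ s : R, s • z = 0 → s ∈ m := by
    intro s hs
    apply hle
    rw [Module.mem_annihilator]
    rintro ⟨y, hy⟩
    obtain ⟨a, rfl⟩ := Submodule.mem_span_singleton.1 hy
    apply Subtype.ext
    show s • a • z = 0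
    rw [smul_comm, hs, smul_zero]
  have hchar : CharP (Localization.AtPrime m) p := charP_loc R p m
  have hzA : LocalizedModule.mkLinearMap m.primeCompl P z ≠ 0 := by
    intro h
    obtain ⟨s, hs⟩ := (IsLocalizedModule.eq_zero_iff m.primeCompl
      (LocalizedModule.mkLinearMap m.primeCompl P)).1 h
    exact s.2 (hann _ hs)
  have h2 := tmul_ne_zero_regular (A := Localization.AtPrime m) p e
    (algebraMap R (Localization.AtPrime m) c) (hc m) (LocalizedModule.mkLinearMap m.primeCompl P z)
    hzA
  apply h2
  -- the comparison map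
  obtain ⟨Θ, hΘ⟩ : ∃ Θ : FPush R p e ⊗[R] P →+
      LocalizedModule m.primeCompl P ⊗[Localization.AtPrime m] FPush (Localization.AtPrime m) p e,
      ∀ (x : R) (y : P), Θ (toF R p e x ⊗ₜ[R] y) =
        LocalizedModule.mkLinearMap m.primeCompl P y ⊗ₜ[Localization.AtPrime m]
          toF (Localization.AtPrime m) p e (algebraMap R _ x) := by
    refine ⟨TensorProduct.liftAddHom
      { toFun := fun x =>
          { toFun := fun y => LocalizedModule.mkLinearMap m.primeCompl P y
              ⊗ₜ[Localization.AtPrime m] toF (Localization.AtPrime m) p e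
                (algebraMap R _ ((toF R p e).symm x))
            map_zero' := by rw [map_zero, TensorProduct.zero_tmul]
            map_add' := fun y y' => by rw [map_add, TensorProduct.add_tmul] }
        map_zero' := by
          ext y
          simp
        map_add' := fun x x' => by
          ext y
          simp [TensorProduct.tmul_add] } ?_, fun x y => ?_⟩
    · intro r x y
      simp only [AddMonoidHom.coe_mk, ZeroHom.coe_mk]
      have h3 : (toF R p e).symm (r • x) = r ^ p ^ e * (toF R p e).symm x := rfl
      have h4 : LocalizedModule.mkLinearMap m.primeCompl P (r • y) =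
          algebraMap R (Localization.AtPrime m) r • LocalizedModule.mkLinearMap m.primeCompl P y := by
        rw [map_smul, algebraMap_smul]
      rw [h3, h4, TensorProduct.smul_tmul, map_mul, map_pow, smul_toF]
    · simp
  have h3 := congrArg Θ h1
  rw [hΘ, map_zero] at h3
  exact h3

/-- The image of an element outside the minimal primes is not zero in any localization. -/
theorem algebraMap_ne_zero (R : Type u) [CommRing R] (c : R) (hc : ∀ P ∈ minimalPrimes R, c ∉ P)
    (P : Ideal R) [P.IsPrime] : algebraMap R (Localization.AtPrime P) c ≠ 0 := by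
  intro h
  obtain ⟨⟨s, hs⟩, hsc⟩ := (IsLocalization.map_eq_zero_iff P.primeCompl _ c).1 h
  obtain ⟨K, hK, hKP⟩ := Ideal.exists_minimalPrimes_le (I := ⊥) (J := P) bot_le
  have hKp : K.IsPrime := hK.1.1
  have h1 : s * c ∈ K := by
    have : s * c = 0 := hsc
    rw [this]
    exact K.zero_mem
  rcases hKp.mem_or_mem h1 with h2 | h2
  · exact hs (hKP h2)
  · exact hc K hK h2

/-- The main theorem. -/
theorem fpure_regular (R : Type u) [CommRing R] [IsRegularRing R] (p : ℕ) [hp : Fact p.Prime]
    [CharP R p] (hJ : J0 R) (c : R) (hc : ∀ P ∈ minimalPrimes R, c ∉ P) :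
    ∃ e : ℕ, 1 ≤ e ∧ IsPure.{u, v} (lam R p e c) := by
  obtain ⟨N, hN⟩ := bound R hJ c (fun P _ => algebraMap_ne_zero R c hc P)
  refine ⟨N + 1, by omega, pure_of_local R p (N + 1) c fun m _ hmem => ?_⟩
  refine hN m (Ideal.pow_le_pow_right ?_ hmem)
  have h1 : N + 1 < p ^ (N + 1) := Nat.lt_pow_self hp.out.one_lt
  omega

end Pool.Agent.Helper861_FPR
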